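import Pool.Agent.Lib_MP_d064d6_lc.Proof

open Pool.Agent.Lib_MP_d064d6_lc

namespace Pool.Agent.Results.MP_d064d6_lc.PottsConvexity

/-- **Main theorem.** For all `q ≥ 3`, `d ≥ 1` and all `β` with `max{0, 1 - q/(d+1)} ≤ β ≤ 1`, the
image `𝓕^prod_{A,d}` of the product measures under the belief-propagation map of the
antiferromagnetic Potts matrix is convex exactly when `q = 3`, or `d = 1`, or `β = 1`, or
(`β = 0` and `q = d + 1`). -/
theorem result (q d : ℕ) (hq : 3 ≤ q) (hd : 1 ≤ d) (β : ℝ)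
    (hβ0 : max 0 (1 - (q : ℝ) / ((d : ℝ) + 1)) ≤ β) (hβ1 : β ≤ 1) :
    Convex ℝ (bpImageProd (pottsMatrix q β) d) ↔
      (q = 3 ∨ d = 1 ∨ β = 1 ∨ (β = 0 ∧ q = d + 1)) :=
  Pool.Agent.Lib_MP_d064d6_lc.main q d hq hd β hβ0 hβ1

end Pool.Agent.Results.MP_d064d6_lc.PottsConvexity
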